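import Mathlib
import Pool.Agent.Helper11.Iso.Defs

/-!
# Uniqueness of the optimal weighted flag for pairs of tensors (piece ISO-D, MP_5f0950_ag)
-/

open Finset Matrix

namespace Pool.Agent.Helper11.Iso

open Pool.Agent.Helper10.GIT Pool.Agent.Helper11.GIT

namespace K2

variable {m : ℕ} {n : Fin m → ℕ}

/-! ### weights -/

lemma inner_dw (p : Idx n × Idx n) (γ : WSpace n) :
    inner ℝ (dw p) γ = ∑ t, γ ⟨t, p.1 t⟩ - ∑ t, γ ⟨t, p.2 t⟩ := by
  rw [dw, inner_sub_left, inner_wt, inner_wt]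

lemma slot_dw (p : Idx n × Idx n) (t : Fin m) : ∑ i, (dw p) ⟨t, i⟩ = 0 := by
  simp only [dw, PiLp.sub_apply, sum_sub_distrib]
  rw [slot_wt, slot_wt, sub_self]

lemma slot_hull2 {S : Set (Idx n × Idx n)} {q : WSpace n} (hq : q ∈ convexHull ℝ (dw '' S))
    (t : Fin m) : ∑ i, q ⟨t, i⟩ = 0 := by
  have h1 : convexHull ℝ (dw '' S) ⊆ {q : WSpace n | ∑ i, q ⟨t, i⟩ = 0} := by
    refine convexHull_min ?_ ?_
    · rintro _ ⟨p, _, rfl⟩
      exact slot_dw p t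
    · intro x hx y hy a b _ _ hab
      simp only [Set.mem_ofPred_eq, PiLp.add_apply, PiLp.smul_apply, smul_eq_mul] at hx hy ⊢
      rw [sum_add_distrib, ← mul_sum, ← mul_sum, hx, hy, mul_zero, mul_zero, add_zero]
  exact h1 hq

lemma inner_hull2 {S : Set (Idx n × Idx n)} {β : WSpace n} {c : ℝ}
    (h : ∀ p ∈ S, c ≤ inner ℝ (dw p) β) {q : WSpace n} (hq : q ∈ convexHull ℝ (dw '' S)) :
    c ≤ inner ℝ q β := by
  have h1 : convexHull ℝ (dw '' S) ⊆ {q : WSpace n | c ≤ inner ℝ q β} := by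
    refine convexHull_min ?_ ?_
    · rintro _ ⟨w, hw, rfl⟩
      exact h w hw
    · intro x hx y hy a b ha hb hab
      simp only [Set.mem_ofPred_eq] at hx hy ⊢
      rw [inner_add_left, real_inner_smul_left, real_inner_smul_left]
      calc c = a * c + b * c := by rw [← add_mul, hab, one_mul]
        _ ≤ _ := add_le_add (mul_le_mul_of_nonneg_left hx ha) (mul_le_mul_of_nonneg_left hy hb)
  exact h1 hq

/-- the nearest point to `0` -/
lemma exists_nearest2 {S : Set (Idx n × Idx n)} (hS : S.Nonempty) :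
    ∃ γ : WSpace n, ‖γ‖ = Metric.infDist 0 (convexHull ℝ (dw '' S)) ∧
      (∀ t, ∑ i, γ ⟨t, i⟩ = 0) ∧ ∀ p ∈ S, ‖γ‖ ^ 2 ≤ inner ℝ (dw p) γ := by
  set C := convexHull ℝ (dw '' S) with hC
  have hcomp : IsCompact C := (Set.toFinite (dw '' S)).isCompact_convexHull (𝕜 := ℝ)
  have hne : C.Nonempty := (hS.image dw).convexHull
  obtain ⟨p, hp, hdist⟩ := hcomp.exists_infDist_eq_dist hne 0
  refine ⟨p, ?_, slot_hull2 hp, fun w hw => ?_⟩
  · rw [hdist, dist_comm, dist_zero_right]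
  · have h1 : ‖(0 : WSpace n) - p‖ = ⨅ q : C, ‖(0 : WSpace n) - q‖ := by
      rw [← dist_eq_norm, ← hdist, Metric.infDist_eq_iInf]
      exact iInf_congr fun q => dist_eq_norm _ _
    have h2 := (norm_eq_iInf_iff_real_inner_le_zero (convex_convexHull ℝ _) hp).mp h1
      (dw w) (subset_convexHull ℝ _ ⟨w, hw, rfl⟩)
    rw [← real_inner_self_eq_norm_sq]
    rw [zero_sub, inner_neg_left, inner_sub_right] at h2
    have e3 := real_inner_comm (dw w) p
    linarith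

/-- a lower bound for the distance -/
lemma le_infDist2 {S : Set (Idx n × Idx n)} (hS : S.Nonempty) {β : WSpace n} {c : ℝ}
    (h : ∀ p ∈ S, c ≤ inner ℝ (dw p) β) :
    c ≤ ‖β‖ * Metric.infDist 0 (convexHull ℝ (dw '' S)) := by
  set C := convexHull ℝ (dw '' S) with hC
  have hcomp : IsCompact C := (Set.toFinite (dw '' S)).isCompact_convexHull (𝕜 := ℝ)
  have hne : C.Nonempty := (hS.image dw).convexHull
  obtain ⟨p, hp, hdist⟩ := hcomp.exists_infDist_eq_dist hne 0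
  rw [hdist, dist_comm, dist_zero_right]
  calc c ≤ inner ℝ p β := inner_hull2 h hp
    _ ≤ ‖p‖ * ‖β‖ := real_inner_le_norm _ _
    _ = _ := mul_comm _ _

/-! ### contragredients -/

variable {κ : Type*} [Field κ]

lemma isUnit_of {k : ℕ} {A : Matrix (Fin k) (Fin k) κ} (h : A.det ≠ 0) : IsUnit A.det :=
  isUnit_iff_ne_zero.mpr h

lemma contra_det {h : Mats n κ} (hh : ∀ t, (h t).det ≠ 0) (t : Fin m) : (contra h t).det ≠ 0 := by
  rw [contra, Matrix.det_transpose, Matrix.det_nonsing_inv]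
  exact (isUnit_of (hh t)).ringInverse.ne_zero

lemma contra_mul (g h : Mats n κ) : contra (g * h) = contra g * contra h := by
  funext t
  simp only [contra, Pi.mul_apply, Matrix.mul_inv_rev, Matrix.transpose_mul]

/-- the transition matrix of the contragredients -/
lemma contra_transition {g h : Mats n κ} (hh : ∀ t, (h t).det ≠ 0) :
    contra g = (fun t => (h t * (g t)⁻¹)ᵀ : Mats n κ) * contra h := by
  funext t
  simp only [contra, Pi.mul_apply]
  rw [← Matrix.transpose_mul, ← Matrix.mul_assoc, Matrix.nonsing_inv_mul _ (isUnit_of (hh t)),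
    Matrix.one_mul]

/-- the inverse of a matrix which does not decrease the weights -/
lemma LeW_inv {k : ℕ} {A : Matrix (Fin k) (Fin k) κ} (hA : A.det ≠ 0) {γ : Fin k → ℝ}
    (h : LeW A γ γ) : LeW A⁻¹ γ γ := by
  have : Invertible A := A.invertibleOfIsUnitDet (isUnit_of hA)
  have h1 : A.BlockTriangular fun i => -γ i := by
    intro i j hij
    by_contra hne
    have := h i j hne
    linarith
  have h2 := blockTriangular_inv_of_blockTriangular h1
  intro a b hab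
  by_contra hlt
  push Not at hlt
  exact hab (h2 (neg_lt_neg hlt))

/-! ### the comparison lemma -/

theorem comparison {P Q : Set (Idx n → κ)} (hP : ∃ z ∈ P, z ≠ 0) (hQ : ∃ z ∈ Q, z ≠ 0) {D : ℝ}
    (hD : 0 < D)
    (hmax : ∀ h : Mats n κ, (∀ t, (h t).det ≠ 0) →
      Metric.infDist 0 (convexHull ℝ (dw '' dsupp h P Q)) ≤ D)
    {h₁ h₂ : Mats n κ} (hh₁ : ∀ t, (h₁ t).det ≠ 0) (hh₂ : ∀ t, (h₂ t).det ≠ 0)
    {γ₁ γ₂ : WSpace n} (hγ₁ : ‖γ₁‖ = D) (hγ₂ : ‖γ₂‖ = D)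
    (hS₁ : ∀ p ∈ dsupp h₁ P Q, D ^ 2 ≤ inner ℝ (dw p) γ₁)
    (hS₂ : ∀ p ∈ dsupp h₂ P Q, D ^ 2 ≤ inner ℝ (dw p) γ₂) (t : Fin m) :
    LeW (h₂ t * (h₁ t)⁻¹) (fun i => γ₁ ⟨t, i⟩) (fun i => γ₂ ⟨t, i⟩) := by
  classical
  choose g α hg hgh hgα hgα' hπ using fun t => exists_common (h₁ t) (h₂ t) (hh₁ t) (hh₂ t)
    (fun i => γ₁ ⟨t, i⟩) (fun i => γ₂ ⟨t, i⟩)
  choose π hπ using hπ
  set a : WSpace n := WithLp.toLp 2 fun s => α s.1 s.2 with ha
  have haa : ∀ t i, a ⟨t, i⟩ = α t i := fun t i => rfl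
  -- the inverse of the first transition matrix
  have hgh' : ∀ t, LeW (h₁ t * (g t)⁻¹) (fun i => γ₁ ⟨t, i⟩) (fun i => γ₁ ⟨t, i⟩) := by
    intro t
    have h1 : (g t * (h₁ t)⁻¹).det ≠ 0 := by
      rw [Matrix.det_mul, Matrix.det_nonsing_inv]
      exact mul_ne_zero (hg t) (isUnit_of (hh₁ t)).ringInverse.ne_zero
    have h2 := LeW_inv h1 (hgh t)
    rwa [Matrix.mul_inv_rev, Matrix.nonsing_inv_nonsing_inv _ (isUnit_of (hh₁ t))] at h2
  have hγg : ∀ p ∈ dsupp g P Q, D ^ 2 ≤ inner ℝ (dw p) γ₁ := by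
    rintro ⟨w, v⟩ ⟨hw, hv⟩
    obtain ⟨w', hw', hk⟩ := supp_transition (k := fun t => g t * (h₁ t)⁻¹) (h := h₁) (by
      funext t
      change g t = g t * (h₁ t)⁻¹ * h₁ t
      rw [Matrix.mul_assoc, Matrix.nonsing_inv_mul _ (isUnit_of (hh₁ t)), Matrix.mul_one]) hw
    obtain ⟨v', hv', hl⟩ := supp_transition (k := fun t => (h₁ t * (g t)⁻¹)ᵀ) (h := contra h₁)
      (contra_transition hh₁) hv
    refine (hS₁ (w', v') ⟨hw', hv'⟩).trans ?_
    rw [inner_dw, inner_dw]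
    exact sub_le_sub (sum_le_sum fun t _ => hgh t _ _ (hk t))
      (sum_le_sum fun t _ => hgh' t _ _ (hl t))
  have hag : ∀ p ∈ dsupp g P Q, D ^ 2 ≤ inner ℝ (dw p) a := by
    rintro ⟨w, v⟩ ⟨hw, hv⟩
    obtain ⟨w', hw', hk⟩ := supp_transition (k := fun t => g t * (h₂ t)⁻¹) (h := h₂) (by
      funext t
      change g t = g t * (h₂ t)⁻¹ * h₂ t
      rw [Matrix.mul_assoc, Matrix.nonsing_inv_mul _ (isUnit_of (hh₂ t)), Matrix.mul_one]) hw
    obtain ⟨v', hv', hl⟩ := supp_transition (k := fun t => (h₂ t * (g t)⁻¹)ᵀ) (h := contra h₂)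
      (contra_transition hh₂) hv
    refine (hS₂ (w', v') ⟨hw', hv'⟩).trans ?_
    rw [inner_dw, inner_dw]
    exact sub_le_sub (sum_le_sum fun t _ => hgα' t _ _ (hk t))
      (sum_le_sum fun t _ => hgα t _ _ (hl t))
  have hnorm : ‖a‖ = D := by
    rw [← hγ₂]
    have h1 : ‖a‖ ^ 2 = ‖γ₂‖ ^ 2 := by
      rw [EuclideanSpace.real_norm_sq_eq, EuclideanSpace.real_norm_sq_eq, Fintype.sum_sigma,
        Fintype.sum_sigma]
      refine sum_congr rfl fun t _ => ?_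
      rw [← Equiv.sum_comp (π t)]
      refine sum_congr rfl fun i _ => ?_
      rw [haa, hπ t i]
    exact (pow_left_inj₀ (norm_nonneg _) (norm_nonneg _) two_ne_zero).mp h1
  have hdne : (dsupp g P Q).Nonempty :=
    (supp_nonempty hP hg).prod (supp_nonempty hQ (contra_det hg))
  have hag' : a = γ₁ := by
    by_contra hne
    set β : WSpace n := (2 : ℝ)⁻¹ • (γ₁ + a) with hβ
    have hβS : ∀ p ∈ dsupp g P Q, D ^ 2 ≤ inner ℝ (dw p) β := by
      intro w hw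
      rw [hβ, inner_smul_right, inner_add_right]
      have h1 := hγg w hw
      have h2 := hag w hw
      linarith
    have h1 := le_infDist2 hdne hβS
    have h2 := hmax g hg
    have h3 : ‖β‖ ^ 2 < D ^ 2 := by
      have h4 : 0 < ‖γ₁ - a‖ ^ 2 := by
        have : γ₁ - a ≠ 0 := sub_ne_zero.mpr (Ne.symm hne)
        positivity
      have h5 := parallelogram_law_with_norm ℝ γ₁ a
      have h6 : ‖β‖ ^ 2 = 4⁻¹ * ‖γ₁ + a‖ ^ 2 := by
        rw [hβ, norm_smul, mul_pow]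
        norm_num
      rw [hγ₁, hnorm] at h5
      rw [h6]
      nlinarith
    have h4 : ‖β‖ < D := lt_of_pow_lt_pow_left₀ 2 hD.le h3
    have h5 : D ^ 2 ≤ ‖β‖ * D := h1.trans (mul_le_mul_of_nonneg_left h2 (norm_nonneg β))
    have h6 : ‖β‖ * D < D ^ 2 := by
      rw [sq]; exact mul_lt_mul_of_pos_right h4 hD
    exact absurd h5 (not_le.mpr h6)
  have hαt : α t = fun i => γ₁ ⟨t, i⟩ := by
    funext i
    rw [← haa, hag']
  have h1 := hgα t
  rw [hαt] at h1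
  have h2 := h1.mul (hgh t)
  have h3 : h₂ t * (g t)⁻¹ * (g t * (h₁ t)⁻¹) = h₂ t * (h₁ t)⁻¹ := by
    rw [Matrix.mul_assoc, ← Matrix.mul_assoc (g t)⁻¹, Matrix.nonsing_inv_mul _ (isUnit_of (hg t)),
      Matrix.one_mul]
  rwa [h3] at h2

/-! ### semilinear maps -/

section semilinear

variable (τ : κ ≃+* κ)

/-- the entrywise image of a tuple of matrices -/
def tm (h : Mats n κ) : Mats n κ := fun t => (h t).map τ

/-- the image of a set of tensors -/
def ts (P : Set (Idx n → κ)) : Set (Idx n → κ) := (fun z w => τ (z w)) '' P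

lemma act_tm (h : Mats n κ) (z : Idx n → κ) (w : Idx n) :
    act (tm τ h) (fun w => τ (z w)) w = τ (act h z w) := by
  simp only [act_apply, tm, Matrix.map_apply, map_sum, map_mul, map_prod]

lemma supp_tm (h : Mats n κ) (P : Set (Idx n → κ)) : supp (tm τ h) (ts τ P) = supp h P := by
  ext w
  constructor
  · rintro ⟨_, ⟨z, hz, rfl⟩, hw⟩
    refine ⟨z, hz, fun h0 => hw ?_⟩
    have := act_tm τ h z w
    rw [h0, map_zero] at this
    exact this
  · rintro ⟨z, hz, hw⟩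
    refine ⟨_, ⟨z, hz, rfl⟩, ?_⟩
    have := act_tm τ h z w
    rw [this]
    exact (map_ne_zero τ).mpr hw

lemma det_tm (h : Mats n κ) (hh : ∀ t, (h t).det ≠ 0) (t : Fin m) : (tm τ h t).det ≠ 0 := by
  have h1 : (tm τ h t).det = τ (h t).det := by
    rw [tm]
    exact (RingEquiv.map_det τ (h t)).symm
  rw [h1]
  exact (map_ne_zero τ).mpr (hh t)

lemma tm_inv {k : ℕ} (A : Matrix (Fin k) (Fin k) κ) (hA : A.det ≠ 0) :
    (A.map τ)⁻¹ = A⁻¹.map τ := by
  apply Matrix.inv_eq_right_inv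
  rw [← Matrix.map_mul, Matrix.mul_nonsing_inv _ (isUnit_of hA)]
  exact Matrix.map_one _ (map_zero τ) (map_one τ)

lemma contra_tm (h : Mats n κ) (hh : ∀ t, (h t).det ≠ 0) : contra (tm τ h) = tm τ (contra h) := by
  funext t
  simp only [contra, tm]
  rw [tm_inv τ (h t) (hh t), Matrix.transpose_map]

lemma dsupp_tm (h : Mats n κ) (hh : ∀ t, (h t).det ≠ 0) (P Q : Set (Idx n → κ)) :
    dsupp (tm τ h) (ts τ P) (ts τ Q) = dsupp h P Q := by
  rw [dsupp, dsupp, contra_tm τ h hh, supp_tm, supp_tm]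

lemma tm_symm (h : Mats n κ) : tm τ (tm τ.symm h) = h := by
  funext t
  ext i j
  simp [tm]

end semilinear

lemma act_smul_mats (c : Fin m → κ) (h : Mats n κ) (z : Idx n → κ) :
    act (fun t => c t • h t) z = (∏ t, c t) • act h z := by
  funext w
  simp only [act_apply, Pi.smul_apply, smul_eq_mul, Matrix.smul_apply, mul_sum]
  refine sum_congr rfl fun w' _ => ?_
  rw [prod_mul_distrib]
  ring

end K2

open K2

variable {m : ℕ} {n : Fin m → ℕ}

/-- PIECE ISO-D -/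
theorem exists_isotropic {κ : Type*} [Field κ] {P Q : Set (Idx n → κ)}
    (hP : ∃ z ∈ P, z ≠ 0)
    {h₀ : Mats n κ} (hh₀ : ∀ t, (h₀ t).det ≠ 0) (hbad : Bad2 h₀ P Q)
    (B : Mats n κ) (hB : ∀ t, (B t).det ≠ 0) (hBs : ∀ t, (B t)ᵀ = B t ∨ (B t)ᵀ = -B t)
    (hQ : Q = act B '' P) :
    ∃ (t : Fin m) (F : Submodule κ (Fin (n t) → κ)), F ≠ ⊥ ∧
      (∀ x ∈ F, ∀ y ∈ F, x ⬝ᵥ (B t).mulVec y = 0) ∧
      (∀ (ρ : Mats n κ) (τ : κ ≃+* κ), (∀ t, (ρ t).det ≠ 0) →
        (∀ z ∈ P, act ρ (fun w => τ (z w)) ∈ P) →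
        (∀ y ∈ Q, act (contra ρ) (fun w => τ (y w)) ∈ Q) →
        ∀ x ∈ F, (ρ t).mulVec (fun i => τ (x i)) ∈ F) := by
  classical
  have hQ0 : ∃ y ∈ Q, y ≠ 0 := by
    obtain ⟨z, hz, hz0⟩ := hP
    refine ⟨act B z, by rw [hQ]; exact ⟨z, hz, rfl⟩, fun h0 => hz0 ?_⟩
    have h2 : (fun t => (B t)⁻¹ : Mats n κ) * B = 1 := by
      funext t
      exact Matrix.nonsing_inv_mul _ (isUnit_of (hB t))
    rw [← act_one z, ← h2, act_mul, h0, map_zero]
  -- optimal bases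
  let 𝒮 : Set (Set (Idx n × Idx n)) := {S | ∃ h : Mats n κ, (∀ t, (h t).det ≠ 0) ∧ S = dsupp h P Q}
  obtain ⟨_, ⟨h, hh, rfl⟩, hmax⟩ := Set.exists_max_image 𝒮
    (fun S => Metric.infDist 0 (convexHull ℝ (dw '' S))) (Set.toFinite _)
    ⟨dsupp h₀ P Q, h₀, hh₀, rfl⟩
  have hne : ∀ h : Mats n κ, (∀ t, (h t).det ≠ 0) → (dsupp h P Q).Nonempty := fun h hh =>
    (supp_nonempty hP hh).prod (supp_nonempty hQ0 (contra_det hh))
  obtain ⟨γ, hγ, hγ0, hγS⟩ := exists_nearest2 (hne h hh)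
  have hD : 0 < ‖γ‖ := by
    rw [hγ]
    refine lt_of_lt_of_le ?_ (hmax _ ⟨h₀, hh₀, rfl⟩)
    have hcl : IsClosed (convexHull ℝ (dw '' dsupp h₀ P Q)) :=
      ((Set.toFinite (dw '' dsupp h₀ P Q)).isCompact_convexHull (𝕜 := ℝ)).isClosed
    exact (hcl.notMem_iff_infDist_pos ((hne h₀ hh₀).image dw).convexHull).mp hbad
  have hmax' : ∀ h' : Mats n κ, (∀ t, (h' t).det ≠ 0) →
      Metric.infDist 0 (convexHull ℝ (dw '' dsupp h' P Q)) ≤ ‖γ‖ := fun h' hh' => by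
    rw [hγ]
    exact hmax _ ⟨h', hh', rfl⟩
  -- a slot in which the weight is not zero
  have hγne : γ ≠ 0 := norm_pos_iff.mp hD
  obtain ⟨⟨t, i₀⟩, hti⟩ : ∃ s, γ s ≠ 0 := by
    by_contra hcon
    push Not at hcon
    exact hγne (by ext s; exact hcon s)
  obtain ⟨i₁, -, hi₁⟩ := exists_max_image univ (fun i => γ ⟨t, i⟩) ⟨i₀, mem_univ i₀⟩
  have hpos : 0 < γ ⟨t, i₁⟩ := by
    by_contra hcon
    push Not at hcon
    have h1 : ∀ i ∈ univ, γ ⟨t, i⟩ ≤ 0 := fun i hi => (hi₁ i hi).trans hcon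
    exact hti ((sum_eq_zero_iff_of_nonpos h1).mp (hγ0 t) i₀ (mem_univ _))
  refine ⟨t,
    { carrier := {x | ∀ b, γ ⟨t, b⟩ < γ ⟨t, i₁⟩ → (h t *ᵥ x) b = 0}
      add_mem' := fun {x y} hx hy b hb => by
        rw [Matrix.mulVec_add, Pi.add_apply, hx b hb, hy b hb, add_zero]
      zero_mem' := fun b _ => by rw [Matrix.mulVec_zero, Pi.zero_apply]
      smul_mem' := fun c x hx b hb => by
        rw [Matrix.mulVec_smul, Pi.smul_apply, hx b hb, smul_zero] }, ?_, ?_, ?_⟩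
  · rw [Submodule.ne_bot_iff]
    refine ⟨(h t)⁻¹ *ᵥ (Pi.single i₁ 1), fun b hb => ?_, fun h0 => ?_⟩
    · rw [Matrix.mulVec_mulVec, Matrix.mul_nonsing_inv _ (isUnit_of (hh t)), Matrix.one_mulVec]
      refine Pi.single_eq_of_ne ?_ _
      rintro rfl
      exact lt_irrefl _ hb
    · have h1 := congrArg (fun x => (h t) *ᵥ x) h0
      simp only [Matrix.mulVec_mulVec, Matrix.mul_nonsing_inv _ (isUnit_of (hh t)),
        Matrix.one_mulVec, Matrix.mulVec_zero] at h1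
      have h2 := congrFun h1 i₁
      rw [Pi.single_eq_same] at h2
      exact one_ne_zero h2
  · -- isotropy
    intro x hx y hy
    set h₂ : Mats n κ := contra h * B with hh₂def
    have hh₂ : ∀ t, (h₂ t).det ≠ 0 := fun t => by
      rw [hh₂def, Pi.mul_apply, Matrix.det_mul]
      exact mul_ne_zero (contra_det hh t) (hB t)
    have hc : ∀ t, ∃ c : κ, contra h₂ t * B t = c • h t := by
      intro t
      have h1 : contra h₂ t = h t * ((B t)⁻¹)ᵀ := by
        simp only [hh₂def, contra, Pi.mul_apply, Matrix.mul_inv_rev, Matrix.transpose_mul]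
        rw [Matrix.transpose_nonsing_inv, Matrix.transpose_transpose,
          Matrix.nonsing_inv_nonsing_inv _ (isUnit_of (hh t))]
      rw [h1, Matrix.mul_assoc, Matrix.transpose_nonsing_inv]
      rcases hBs t with hb | hb
      · exact ⟨1, by rw [hb, Matrix.nonsing_inv_mul _ (isUnit_of (hB t)), Matrix.mul_one,
          one_smul]⟩
      · refine ⟨-1, ?_⟩
        have h2 : (-B t)⁻¹ = -(B t)⁻¹ := by
          apply Matrix.inv_eq_right_inv
          rw [neg_mul_neg, Matrix.mul_nonsing_inv _ (isUnit_of (hB t))]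
        rw [hb, h2, neg_mul, Matrix.nonsing_inv_mul _ (isUnit_of (hB t)), Matrix.mul_neg,
          Matrix.mul_one, neg_smul, one_smul]
    choose c hc using hc
    have hS₂ : ∀ p ∈ dsupp h₂ P Q, ‖γ‖ ^ 2 ≤ inner ℝ (dw p) (-γ) := by
      rintro ⟨w, v⟩ ⟨hw, hv⟩
      have hw' : w ∈ supp (contra h) Q := by
        obtain ⟨z, hz, hzw⟩ := hw
        rw [hh₂def, act_mul] at hzw
        exact ⟨act B z, by rw [hQ]; exact ⟨z, hz, rfl⟩, hzw⟩
      have hv' : v ∈ supp h P := by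
        obtain ⟨y', hy', hyv⟩ := hv
        rw [hQ] at hy'
        obtain ⟨z, hz, rfl⟩ := hy'
        refine ⟨z, hz, fun h0 => hyv ?_⟩
        rw [← act_mul]
        have h1 : (contra h₂ * B : Mats n κ) = fun t => c t • h t := by
          funext t
          exact hc t
        rw [h1, act_smul_mats, Pi.smul_apply, h0, smul_zero]
      have h1 := hγS (v, w) ⟨hv', hw'⟩
      rw [inner_dw] at h1
      rw [inner_neg_right, inner_dw]
      simp only at h1 ⊢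
      linarith
    have h3 := comparison hP hQ0 hD hmax' hh hh₂ rfl (norm_neg γ) hγS hS₂ t
    have h4 : x ⬝ᵥ (B t).mulVec y = (h t *ᵥ x) ⬝ᵥ ((h₂ t * (h t)⁻¹) *ᵥ (h t *ᵥ y)) := by
      have h5 : (h₂ t * (h t)⁻¹) *ᵥ (h t *ᵥ y) = h₂ t *ᵥ y := by
        rw [Matrix.mulVec_mulVec, Matrix.mul_assoc, Matrix.nonsing_inv_mul _ (isUnit_of (hh t)),
          Matrix.mul_one]
      have h6 : h₂ t *ᵥ y = ((h t)⁻¹)ᵀ *ᵥ (B t *ᵥ y) := by
        rw [Matrix.mulVec_mulVec]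
        rfl
      rw [h5, h6, Matrix.dotProduct_mulVec (h t *ᵥ x), Matrix.vecMul_transpose,
        Matrix.mulVec_mulVec, Matrix.nonsing_inv_mul _ (isUnit_of (hh t)), Matrix.one_mulVec]
    rw [h4, dotProduct]
    refine sum_eq_zero fun a _ => ?_
    by_cases ha : γ ⟨t, a⟩ < γ ⟨t, i₁⟩
    · rw [hx a ha, zero_mul]
    · have ha' : γ ⟨t, a⟩ = γ ⟨t, i₁⟩ := le_antisymm (hi₁ a (mem_univ a)) (not_lt.mp ha)
      have h7 : ((h₂ t * (h t)⁻¹) *ᵥ (h t *ᵥ y)) a = 0 := by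
        rw [Matrix.mulVec, dotProduct]
        refine sum_eq_zero fun b _ => ?_
        by_cases hb : γ ⟨t, b⟩ < γ ⟨t, i₁⟩
        · rw [hy b hb, mul_zero]
        · have hb' : γ ⟨t, b⟩ = γ ⟨t, i₁⟩ := le_antisymm (hi₁ b (mem_univ b)) (not_lt.mp hb)
          by_cases hab : (h₂ t * (h t)⁻¹) a b = 0
          · rw [hab, zero_mul]
          · exfalso
            have h8 := h3 a b hab
            simp only [PiLp.neg_apply] at h8
            rw [ha', hb'] at h8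
            linarith
      rw [h7, mul_zero]
  · -- stability
    intro ρ τ hρ hρP hρQ x hx b hb
    have hP' : ∃ z ∈ ts τ P, z ≠ 0 := by
      obtain ⟨z, hz, hz0⟩ := hP
      refine ⟨_, ⟨z, hz, rfl⟩, fun h0 => hz0 ?_⟩
      funext w
      exact (map_eq_zero τ).mp (congrFun h0 w)
    have hQ' : ∃ z ∈ ts τ Q, z ≠ 0 := by
      obtain ⟨z, hz, hz0⟩ := hQ0
      refine ⟨_, ⟨z, hz, rfl⟩, fun h0 => hz0 ?_⟩
      funext w
      exact (map_eq_zero τ).mp (congrFun h0 w)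
    have hmax'' : ∀ h' : Mats n κ, (∀ t, (h' t).det ≠ 0) →
        Metric.infDist 0 (convexHull ℝ (dw '' dsupp h' (ts τ P) (ts τ Q))) ≤ ‖γ‖ := by
      intro h' hh'
      have h1 : dsupp h' (ts τ P) (ts τ Q) = dsupp (tm τ.symm h') P Q := by
        conv_lhs => rw [← tm_symm τ h']
        exact dsupp_tm τ _ (det_tm τ.symm h' hh') P Q
      rw [h1]
      exact hmax' _ (det_tm τ.symm h' hh')
    have hh₂ : ∀ t, ((h * ρ : Mats n κ) t).det ≠ 0 := fun t => by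
      rw [Pi.mul_apply, Matrix.det_mul]
      exact mul_ne_zero (hh t) (hρ t)
    have hS₁ : ∀ p ∈ dsupp (tm τ h) (ts τ P) (ts τ Q), ‖γ‖ ^ 2 ≤ inner ℝ (dw p) γ := by
      rw [dsupp_tm τ h hh]
      exact hγS
    have hS₂ : ∀ p ∈ dsupp (h * ρ) (ts τ P) (ts τ Q), ‖γ‖ ^ 2 ≤ inner ℝ (dw p) γ := by
      rintro ⟨w, v⟩ ⟨hw, hv⟩
      refine hγS (w, v) ⟨?_, ?_⟩
      · obtain ⟨_, ⟨z, hz, rfl⟩, hzw⟩ := hw
        rw [act_mul] at hzw
        exact ⟨_, hρP z hz, hzw⟩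
      · obtain ⟨_, ⟨z, hz, rfl⟩, hzw⟩ := hv
        rw [contra_mul, act_mul] at hzw
        exact ⟨_, hρQ z hz, hzw⟩
    have h3 := comparison hP' hQ' hD hmax'' (det_tm τ h hh) hh₂ rfl rfl hS₁ hS₂ t
    have h4 : h t *ᵥ (ρ t *ᵥ (fun i => τ (x i))) =
        ((h * ρ : Mats n κ) t * (tm τ h t)⁻¹) *ᵥ (fun c => τ ((h t *ᵥ x) c)) := by
      have h5 : (fun c => τ ((h t *ᵥ x) c)) = tm τ h t *ᵥ (fun i => τ (x i)) := by
        funext c
        simp only [Matrix.mulVec, dotProduct, map_sum, map_mul, tm, Matrix.map_apply]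
      have h6 : (h * ρ : Mats n κ) t * (tm τ h t)⁻¹ * tm τ h t = h t * ρ t := by
        rw [Matrix.mul_assoc, Matrix.nonsing_inv_mul _ (isUnit_of (det_tm τ h hh t)),
          Matrix.mul_one]
        rfl
      rw [h5, Matrix.mulVec_mulVec, Matrix.mulVec_mulVec, h6]
    rw [h4, Matrix.mulVec, dotProduct]
    refine sum_eq_zero fun a _ => ?_
    by_cases ha : ((h * ρ : Mats n κ) t * (tm τ h t)⁻¹) b a = 0
    · rw [ha, zero_mul]
    · rw [hx a (lt_of_le_of_lt (h3 b a ha) hb), map_zero, mul_zero]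

end Pool.Agent.Helper11.Iso
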